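import Pool.Agent.Helper14.AS.Fin

/-!
# MP_b2b689_ag: density of the regulator for `K₁` of every abelian surface

Bidegree `(i, j) = (3, 2)` and `X = ℂ² / Λ` an arbitrary abelian surface (a lattice with a Riemann
form): the real regulators of the elements of `H³_M(X, ℚ(2))` are dense in the dual of the space of
real `(1, 1)`-classes of `X`.
-/

namespace Pool.Agent.Results.MP_b2b689_ag.AbelianSurfaces

open Pool.Agent.Helper14.AS

/-- For every lattice `Λ = lat b` of `ℂ²` with a Riemann form, the vectors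
`(1/m) (R_l(ξ))_l`, where `m ≥ 1`, `ξ` is a formal sum of curves with functions whose boundary in
`ℂ² / Λ` is zero, and `l = z₁, z₂, z₁ + z₂, z₁ + i z₂`, are dense in `ℝ⁴`. -/
theorem result (b : Fin 4 → ℂ × ℂ) (hb : LinearIndependent ℝ b)
    (hR : ∃ E, IsRiemannForm b E) :
    Dense {v : Fin 4 → ℝ | ∃ m : ℕ, 0 < m ∧ ∃ ξ : Chain, IsCycle (lat b) ξ ∧
      v = fun i => (1 / (m : ℝ)) * ξ.reg (frm i)} :=
  main b hb hR

end Pool.Agent.Results.MP_b2b689_ag.AbelianSurfaces
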