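import Pool.Agent.Helper76.ES.Main

/-!
# Density of the regulator in bidegree `(3, 2)` on K3 surfaces and elliptic surfaces

`X` is a complex manifold (charts in a complex normed space `E`, holomorphic transition maps).

* `Form E X`: closed real `(1,1)`-forms `η` on `X`, given by smooth local potentials,
  `η = i ∂∂̄ (pot x)` near `x`.
* `RatCurve E X`, `EllCurve E X`: holomorphic maps `ℙ¹ → X`, `ℂ / (ℤ + ℤ τ) → X`.
* `Chain E X`: formal sums `∑ n (C, f)` of such curves with rational or elliptic functions on them;
  `IsCycle ξ`: the sum of the divisors is zero in `X`. On a smooth projective surface these are
  elements of `CH²(X, 1) = H³_M(X, ℤ(2))`.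
* `reg η ξ = 2 ∑ n ∫_C log |f| η`, the real regulator paired with the class of `η`.
* `Family E X`: a family of elliptic curves `ℂ / (ℤ + ℤ τ(s)) → X` over the upper half plane,
  `Ψ (s, z)` holomorphic in both variables, invariant under `s ↦ s + 1` with `τ (s + 1) = τ s + n`,
  `n ≠ 0` (multiplicative monodromy), such that the points `0` and `b s` of every curve lie on
  two fixed rational curves: `Ψ (s, 0) = R' (r' s)`, `Ψ (s, b s) = R (r s)` with `r`, `r'` holomorphic
  and never `∞`; `b (s + 1) = b s + m` and `b - (m / n) τ` is not constant.
* `ExactAlong F η`: the pull-back of `η` to the family is `i ∂∂̄ G` for a function `G` on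
  `ℍ × ℂ` which is periodic on all the elliptic curves.
* `NumTrivial η`: `η` has degree `0` on all rational and all elliptic curves in `X`.

Application. Let `Y → B` be a family of curves of genus one with non-constant `j` and a surjective
map from `Y` to a surface `X`, and `R'`, `R` two rational curves in `X`, such that the difference of the
multisections of `Y → B` over them is not torsion. After a finite base change they are sections `O`,
`P`. Take for the upper half plane the universal cover of the base without the critical values,
with a pole of `j` at `i ∞`, for `Ψ` the uniformisation of the smooth fibres. If `η` is exact along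
the family and of degree `0` on curves, its class vanishes: its pull-back to `Y` is zero over
the complement of finitely many points of the base, so it is a sum of components of fibres; it has
degree `0` on all of them, so it is a multiple of the fibre, and it has degree `0` on `O`. So for a
basis of `H^{1,1}(X, ℝ)` the theorem says that the image of `H³_M(X, ℚ(2))` in the dual of
`H^{1,1}(X, ℝ)` is dense.

This applies to the elliptic surfaces `X → ℙ¹` with non-constant `j` and a section of infinite order,
and to every projective K3 surface: it has a family of curves of geometric genus one with
non-constant `j` (Chen, Gounelas) and infinitely many rational curves (Chen, Gounelas, Liedtke). The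
differences of their multisections are not all torsion: the orders would be bounded, because
the gonality of the modular curves `X_1(N)` tends to infinity, and there are only finitely many
torsion multisections of bounded order.
-/

open scoped Manifold ContDiff

noncomputable section

namespace Pool.Agent.Results.MP_b2b689_ag.EllipticFamilies

open Pool.Agent.Helper76.ES

/-- If no nonzero real combination of the closed real `(1,1)`-forms `η j` is both of degree zero on
rational and elliptic curves and exact along all families, the regulators of `K_1`-cycles, divided
by positive integers, are dense. -/
theorem result (E : Type) [NormedAddCommGroup E] [NormedSpace ℂ E] (X : Type) [TopologicalSpace X]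
    [ChartedSpace E X] [IsManifold 𝓘(ℂ, E) ω X] (k : ℕ) (η : Fin k → Form E X)
    (h : ∀ c : Fin k → ℝ, NumTrivial (comb c η) →
      (∀ F : Family E X, ExactAlong F (comb c η)) → c = 0) :
    Dense {v : Fin k → ℝ | ∃ m : ℕ, 0 < m ∧ ∃ ξ : Chain E X, IsCycle ξ ∧
      ∀ j, v j = reg (η j) ξ / m} :=
  main k η h

end Pool.Agent.Results.MP_b2b689_ag.EllipticFamilies
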