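import Pool.Agent.Helper14.EP.Fin

/-!
# MP_b2b689_ag: density of the regulator in bidegree `(5, 3)` for powers of elliptic curves

`X = E⁴` with `E` an arbitrary complex elliptic curve, in the form
`E : Y² = (X - 1)(X - l)(X - l⁻¹)`, `l ≠ 0, 1, -1`.

* `Hg^{5,3}(X) = 0`, and `H⁵_H(X, ℚ(3)) = J^{5,3}(X) = H⁴(X, ℂ) / (F³H⁴(X) + H⁴(X, ℚ(3)))`.  The closure
  of `H⁴(X, ℚ(3))` is `H⁴(X, ℝ(3))`, so a subgroup is dense if and only if its image in
  `H⁴(X, ℂ) / (F³ + H⁴(X, ℝ(3))) = H^{2,2}(X, ℝ(2))` is dense.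
* Chains `ξ : List (Term l)` with `IsCycle ξ` are elements of `CH³(X, 1) = H⁵_M(X, ℚ(3))`.
* `reg ξ` is the real regulator `η ↦ Σ ∫_Z log |f| η` of `ξ` at the classes
  `η = ω_a ∧ conj ω_b`, `a, b` two of the six pairs of coordinates; these `36` complex numbers form a
  hermitian matrix, and the space of hermitian matrices is `H^{2,2}(X, ℝ)`.
-/

noncomputable section

namespace Pool.Agent.Results.MP_b2b689_ag.EllipticPowers

open Pool.Agent.Helper14.EP

/-- For every complex elliptic curve `E` the real regulators of the elements of `CH³(E⁴, 1)` are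
dense in the space of real `(2, 2)`-classes of `E⁴`. -/
theorem result (l : ℂ) (h0 : l ≠ 0) (h1 : l ≠ 1) (h2 : l ≠ -1) (H : Matrix (Fin 6) (Fin 6) ℂ)
    (hH : H.IsHermitian) (ε : ℝ) (hε : 0 < ε) :
    ∃ (m : ℕ) (ξ : List (Term l)), 0 < m ∧ IsCycle ξ ∧
      ∀ a b, ‖(m : ℂ)⁻¹ * reg ξ a b - H a b‖ < ε :=
  main ⟨h0, h1, h2⟩ H hH ε hε

end Pool.Agent.Results.MP_b2b689_ag.EllipticPowers
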