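import Pool.Agent.Helper63.HF.FIN

/-!
# Density of the regulator in bidegree `(3, 2)` for Fermat surfaces and products of curves

`r`, `N`, `M` are integers with `r + N < r N` and `r + M < r M`; `C` and `C'` are the smooth
projective models of `x ^ r = 1 - y ^ N` and `x ^ r = 1 - y ^ M`, and `X = C × C'`.

* `H³_H(X, ℚ(2)) = J^{3,2}(X) = H²(X, ℂ) / (F²H²(X) + H²(X, ℚ(2)))`, because `Hg^{3,2}(X) = 0`.
  The closure of `H²(X, ℚ(2))` is `H²(X, ℝ(2))`, so a subgroup of `J^{3,2}(X)` is dense if and only
  if its image in `H²(X, ℂ) / (F² + H²(X, ℝ(2)))`, the dual of `H^{1,1}(X, ℝ(1))`, is dense.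
* A `Term` is the push-forward to `X` of a rational function `f` on a curve
  `D : x ^ r = 1 - y ^ L` along a morphism `D → X`, and `IsCycle ξ` says that the sum of the
  divisors of the functions, pushed forward to `X`, is `0`; so `ξ` is an element of
  `CH²(X, 1) = H³_M(X, ℚ(2))`.
* `vec ξ` is the real regulator `η ↦ Σ ∫_D log |f| η` of `ξ`, up to a constant, at the classes
  `ω_{p,q} ⊗ conj ω'_{p,q'}`, `|ω_{1,1}|²` and `|ω'_{1,1}|²`, with `ω_{p,q} = x ^ (p - r) y ^ (q - 1) dy`
  on `C` and `ω'_{p,q}` the same form on `C'`.  The real and imaginary parts of these classes are a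
  basis of the part of `H^{1,1}(X, ℝ)` that is invariant under the group `μ_r` acting on both
  coordinates `x`.

For `r = 2` this part is all of `H^{1,1}(X, ℝ)`.  For `r = N = M` the quotient `X / μ_N` is birational
to the Fermat surface of degree `N`: with `w = x' / x` one has `w ^ N - (w y) ^ N + y' ^ N = 1`.
-/

noncomputable section

namespace Pool.Agent.Results.MP_b2b689_ag.FermatSurfaces

open Pool.Agent.Helper63.HF

/-- The real regulators of the elements of `CH²(C × C', 1)` are dense in the dual of the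
`μ_r`-invariant part of `H^{1,1}(C × C', ℝ)`. -/
theorem result (r N M : ℕ) (hN : r + N < r * N) (hM : r + M < r * M) :
    Dense {v : (Idx r N M → ℂ) × ℝ × ℝ | ∃ (m : ℕ) (ξ : List (Term r N M)),
      0 < m ∧ IsCycle ξ ∧ v = (m : ℝ)⁻¹ • vec ξ} :=
  fin_dense hN hM

end Pool.Agent.Results.MP_b2b689_ag.FermatSurfaces
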